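import Pool.Agent.TH111.J515
import Pool.Agent.TH480.J526

set_option autoImplicit false

/-! Realizations of complexes are locally path connected; cocycles on a complex with simply
connected realization are trivial; comparison of the two topologies as a homeomorphism. -/

namespace Pool.Agent.Y602.CX

open Pool.Agent.TH716.C3 Pool.Agent.Helper281.Sc Pool.Agent.TH111.J515
open Set Topology unitInterval

theorem lpc_convex {E : Type*} [TopologicalSpace E] [AddCommGroup E] [Module ℝ E]
    [ContinuousAdd E] [ContinuousSMul ℝ E] [LocallyConvexSpace ℝ E] {A : Set E}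
    (hA : Convex ℝ A) : LocallyPathConnectedSpace A := by
  refine LocallyPathConnectedSpace.of_bases
    (p := fun (x : A) (s : Set E) => s ∈ 𝓝 (x : E) ∧ Convex ℝ s)
    (s := fun _ s => (Subtype.val : A → E) ⁻¹' s) (fun x => ?_) (fun x s hs => ?_)
  · rw [nhds_subtype]
    exact (LocallyConvexSpace.convex_basis (𝕜 := ℝ) (x : E)).comap _
  · have hc : Convex ℝ (A ∩ s) := hA.inter hs.2
    have hne : (A ∩ s).Nonempty := ⟨x, x.2, mem_of_mem_nhds hs.1⟩
    have h := hc.isPathConnected hne
    rw [IsInducing.subtypeVal.isPathConnected_iff, Subtype.image_preimage_coe]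
    exact h

theorem convex_Simp {V : Type} (s : Finset V) : Convex ℝ (Simp s) := by
  rintro x ⟨hx0, hx1, hx2⟩ y ⟨hy0, hy1, hy2⟩ a b ha hb hab
  refine ⟨fun v => ?_, fun v hv => ?_, ?_⟩
  · have h1 := mul_nonneg ha (hx0 v)
    have h2 := mul_nonneg hb (hy0 v)
    show 0 ≤ a * x v + b * y v
    linarith
  · show a * x v + b * y v = 0
    rw [hx1 v hv, hy1 v hv]
    ring
  · show ∑ v ∈ s, (a * x v + b * y v) = 1
    rw [Finset.sum_add_distrib, ← Finset.mul_sum, ← Finset.mul_sum, hx2, hy2]
    linarith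

theorem lpc_Rlz {V : Type} (K : Set (Finset V)) : LocallyPathConnectedSpace (Rlz K) := by
  have h : ∀ s : K, LocallyPathConnectedSpace (Simp (s : Finset V)) := fun s =>
    lpc_convex (convex_Simp _)
  exact (Rlz.isQuotientMap_glue K).locallyPathConnectedSpace

section

variable {V G : Type} [DecidableEq V] [Group G] {L : Set (Finset V)}

/-- A connected complex has a path connected realization. -/
theorem pathConnected (hK : IsCx L) (v0 : V) (h0 : ({v0} : Finset V) ∈ L)
    (hconn : ∀ v, ({v} : Finset V) ∈ L →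
      Relation.ReflTransGen (fun a b => ({a, b} : Finset V) ∈ L) v v0) :
    PathConnectedSpace (Rlz L) := by
  have hv : ∀ v (hv : ({v} : Finset V) ∈ L), Joined (vt v hv) (vt v0 h0) := by
    intro v hv
    refine Relation.ReflTransGen.head_induction_on
      (motive := fun v _ => ∀ hv : ({v} : Finset V) ∈ L, Joined (vt v hv) (vt v0 h0))
      (hconn v hv) ?_ ?_ hv
    · intro _
      exact Joined.refl _
    · intro a c hac _ ih ha
      exact Joined.trans ⟨ed hK a c hac⟩ (ih (right_mem hK hac))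
  have hx : ∀ x : Rlz L, Joined x (vt v0 h0) := by
    rintro ⟨x, s, hs, hx⟩
    have hne : s.Nonempty := by
      rw [Finset.nonempty_iff_ne_empty]
      rintro rfl
      exact hK.1 hs
    obtain ⟨v, hvs⟩ := hne
    have h1 : ({v} : Finset V) ∈ L := hK.2 s hs _ (by simpa using hvs) (by simp)
    have hy : (fun w => if w = v then (1 : ℝ) else 0) ∈ Simp s := by
      refine ⟨fun w => by dsimp only; split_ifs <;> norm_num, fun w hw =>
        if_neg (by rintro rfl; exact hw hvs), by simp [hvs]⟩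
    have hp : IsPathConnected (Simp s) := (convex_Simp s).isPathConnected ⟨x, hx⟩
    have : PathConnectedSpace (Simp s) := isPathConnected_iff_pathConnectedSpace.1 hp
    have hj : Joined (⟨x, hx⟩ : Simp s) ⟨_, hy⟩ := PathConnectedSpace.joined _ _
    have hj2 : Joined (Rlz.inc s hs ⟨x, hx⟩ : Rlz L) (Rlz.inc s hs ⟨_, hy⟩) :=
      hj.map (Rlz.continuous_inc s hs)
    exact Joined.trans hj2 (hv v h1)
  exact ⟨⟨vt v0 h0⟩, fun x y => (hx x).trans (hx y).symm⟩

theorem exists_section' [TopologicalSpace G] [DiscreteTopology G]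
    (C : V → V → G) (hC : Coc L C) (hsc : SimplyConnectedSpace (Rlz L)) :
    ∃ S : C(Rlz L, (core C hC).TotalSpace), ∀ x, (core C hC).proj (S x) = x := by
  have := lpc_Rlz L
  obtain ⟨x0⟩ : Nonempty (Rlz L) := PathConnectedSpace.nonempty
  obtain ⟨F, ⟨-, hF⟩, -⟩ := (cov C hC).existsUnique_continuousMap_lifts
    (ContinuousMap.id (Rlz L)) x0 ⟨x0, (1 : G)⟩ rfl
  exact ⟨F, fun x => congrFun hF x⟩

/-- Cocycles on a complex with simply connected realization are trivial (after `TH111.J515`). -/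
theorem triv (hL : IsCx L) (hsc : SimplyConnectedSpace (Rlz L)) (C : V → V → G) (hC : Coc L C) :
    ∃ b : V → G, ∀ s ∈ L, ∀ u ∈ s, ∀ v ∈ s, C u v = (b u)⁻¹ * b v := by
  let _ : TopologicalSpace G := ⊥
  have : DiscreteTopology G := ⟨rfl⟩
  obtain ⟨S, hS⟩ := exists_section' C hC hsc
  classical
  let b : V → G := fun v =>
    if h : ({v} : Finset V) ∈ L then ch C hC v (S (vt v h)) else 1
  have hb : ∀ s (hs : s ∈ L), ∀ u ∈ s, ∀ x : Simp s, 0 < x.1 u →
      b u = ch C hC u (S (Rlz.inc s hs x)) := by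
    intro s hs u hu x hx
    have h1 : ({u} : Finset V) ∈ L := hL.2 s hs _ (by simpa using hu) (by simp)
    have h2 : b u = ch C hC u (S (vt u h1)) := dif_pos h1
    rw [h2]
    have hy : (fun w => if w = u then (1 : ℝ) else 0) ∈ Simp s := by
      refine ⟨fun w => by dsimp only; split_ifs <;> norm_num, fun w hw =>
        if_neg (by rintro rfl; exact hw hu), by simp [hu]⟩
    have h3 : (vt u h1 : Rlz L) = Rlz.inc s hs ⟨_, hy⟩ := rfl
    rw [h3]
    apply ch_const C hC S hS hs
    · show (0 : ℝ) < if u = u then 1 else 0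
      rw [if_pos rfl]; norm_num
    · exact hx
  refine ⟨b, fun s hs u hu v hv => ?_⟩
  let x : Simp s := ⟨_, mid_mem hu hv⟩
  have hxu : 0 < x.1 u := by
    show (0 : ℝ) < 1 / 2 * (if u = u then 1 else 0) + 1 / 2 * (if u = v then 1 else 0)
    rw [if_pos rfl]
    split_ifs <;> norm_num
  have hxv : 0 < x.1 v := by
    show (0 : ℝ) < 1 / 2 * (if v = u then 1 else 0) + 1 / 2 * (if v = v then 1 else 0)
    rw [if_pos rfl]
    split_ifs <;> norm_num
  rw [hb s hs u hu x hxu, hb s hs v hv x hxv, ch_change C hC hs x hxu hxv _ (hS _),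
    inv_mul_cancel_left]

end

/-- The two realizations are homeomorphic (after `TH480.J526`). -/
theorem homeo (L : List (List ℕ)) (K : Set (Finset ((ℕ × ℕ) ⊕ (ℕ × ℕ)))) (hfin : K.Finite)
    (h : ∀ t : Finset ℕ, (t.Nonempty ∧ ∃ s ∈ L, t ⊆ s.toFinset) ↔ ∃ s ∈ K, t = s.image code) :
    Nonempty (Rlz K ≃ₜ Real L) := by
  have : CompactSpace (Rlz K) := Pool.Agent.TH480.J526.compactSpace_Rlz hfin
  have : T2Space (Real L) := inferInstanceAs (T2Space {x : ℕ → ℝ //
    ∃ s ∈ L, (∀ i, 0 ≤ x i) ∧ (∀ i, i ∉ s → x i = 0) ∧ ∑ i ∈ s.toFinset, x i = 1})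
  exact ⟨Continuous.homeoOfEquivCompactToT2
    (f := Equiv.ofBijective (Pool.Agent.TH480.J526.phi h)
      ⟨Pool.Agent.TH480.J526.phi_injective h, Pool.Agent.TH480.J526.phi_surjective h⟩)
    (Pool.Agent.TH480.J526.phi_continuous h)⟩

end Pool.Agent.Y602.CX
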