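import Pool.Agent.Y602.CX.Src
import Pool.Agent.Y602.CX.Conn
import Pool.Agent.TH716.C3.Main

set_option autoImplicit false

/-! Every recursively enumerable set is many-one reducible to the contractibility of complexes of
dimension at most three; the complexes of the other side are not simply connected. -/

namespace Pool.Agent.Y602.CX

open Pool.Agent.TH716.C3 Pool.Agent.Helper281.Sc
open Pool.Agent.Helper270.WPSource (u)
open unitInterval Topology

/-- The no-case: the complex is not simply connected (after `TH716.C3.no_case`). -/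
theorem no_case' (hext : S_Kext) (hLcx : S_Lcx) (hLext : S_Lext)
    (N : ℕ) (g : ℕ → ℕ) (hg : ∀ h < N, g h < N)
    (rs : List (List (ℕ × Bool))) (hrs : ∀ r ∈ rs, r ≠ [] ∧ ∀ x ∈ r, x.1 < N)
    (G : Type) [Group G] (γ : ℕ → G) (hγ : ∀ h < N, ev γ (rl g h) = 1)
    (hγr : ∀ r ∈ rs, ev γ r = 1) (hsc : SimplyConnectedSpace (Rlz (Lc (Kp N g) rs))) :
    ∀ h < N, γ h = 1 := by
  obtain ⟨C, hC, hCγ⟩ := hext N g hg G γ hγ
  obtain ⟨C', hC', hCC⟩ := hLext N g hg rs hrs G C hC (fun r hr => by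
    rw [ev_congr (hl C) γ N hCγ r (hrs r hr).2, hγr r hr])
  obtain ⟨hL, hLfin, -, -, -⟩ := hLcx N g hg rs hrs
  obtain ⟨b, hb⟩ := triv hL hsc C' hC'
  intro h hh
  rw [← hCγ h hh]
  -- edges of the circle
  have hed : ∀ u v : ℕ, ({u, v} : Finset ℕ) ∈ Kp N g → C u v = (b (Sum.inl (u, 0)))⁻¹ *
      b (Sum.inl (v, 0)) := by
    intro u v huv
    rw [← hCC]
    refine hb (({u, v} : Finset ℕ).image (fun x => Sum.inl (x, 0))) (Or.inl
      ⟨({u, v} : Finset ℕ).image (fun x => (x, 0)), ⟨?_, ?_, ?_⟩, ?_⟩) _ (by simp) _ (by simp)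
    · rw [Finset.image_image]
      have : (Prod.fst ∘ fun v : ℕ => (v, 0)) = id := rfl
      rwa [this, Finset.image_id]
    · refine ⟨by simp, Or.inl ?_⟩
      ext x
      simp
    · intro x hx y hy
      simp only [Finset.mem_image] at hx hy
      obtain ⟨u, _, rfl⟩ := hx
      obtain ⟨v, _, rfl⟩ := hy
      rcases le_total u v with h | h
      · exact Or.inl (Prod.mk_le_mk.2 ⟨h, le_rfl⟩)
      · exact Or.inr (Prod.mk_le_mk.2 ⟨h, le_rfl⟩)
    · rw [Finset.image_image]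
      rfl
  unfold hl
  rw [hed 0 (2 * h + 1) (Or.inl ⟨by simp, Or.inr ⟨h, hh, Or.inl (by simp)⟩⟩),
    hed (2 * h + 1) (2 * h + 2) (Or.inl ⟨by simp, Or.inr ⟨h, hh, Or.inr (Or.inl (by simp))⟩⟩),
    hed (2 * h + 2) 0 (Or.inl ⟨by simp, Or.inr ⟨h, hh, Or.inr (Or.inr (by
      intro x hx
      simp only [Finset.mem_insert, Finset.mem_singleton] at hx ⊢
      tauto))⟩⟩)]
  group

/-- The reduction. -/
theorem reduction (hP : S_P1) (hcx : S_Kcx) (hhol : S_Khol) (htr : S_Ktriv) (hH2 : S_KH2)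
    (hcomm : S_comm) (hZ : S_Z) (hret : S_ret) (hLcx : S_Lcx)
    (hLcomm : S_Lcomm) (hext : S_Kext) (hLext : S_Lext) (hyes : S_yes)
    (hno : S_no) (hcomp : S_comp) (hreal : S_real) :
    ∃ F : ℕ → List (List ℕ), Computable F ∧ ∀ n,
      (∀ s ∈ F n, s.toFinset.card ≤ 4) ∧ PathConnectedSpace (Real (F n)) ∧
      ((u n).Dom → ContractibleSpace (Real (F n))) ∧
      (¬ (u n).Dom → ¬ SimplyConnectedSpace (Real (F n))) := by
  classical
  obtain ⟨m, R, W, hW, hund⟩ := word_problem'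
  set Rl : List (List (Fin m × Bool)) := R.toList.map FreeGroup.toWord with hRl
  have hR : {x | ∃ r ∈ Rl, x = FreeGroup.mk r} = (R : Set (FreeGroup (Fin m))) := by
    ext x
    constructor
    · rintro ⟨r, hr, rfl⟩
      rw [hRl, List.mem_map] at hr
      obtain ⟨y, hy, rfl⟩ := hr
      rw [FreeGroup.mk_toWord]
      exact Finset.mem_toList.1 hy
    · intro hx
      exact ⟨x.toWord, List.mem_map.2 ⟨x, Finset.mem_toList.2 hx, rfl⟩, FreeGroup.mk_toWord.symm⟩
  obtain ⟨F, hF, hF'⟩ := hcomp (2 * m + 6) (gN m) (gN_lt m)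
  refine ⟨fun n => F (rsn Rl (W n)), hF.comp ((primrec_rsn Rl).to_comp.comp hW), fun n => ?_⟩
  have hrs := rsn_lt Rl (W n)
  obtain ⟨hL, hLfin, -, -, hconn⟩ := hLcx (2 * m + 6) (gN m) (gN_lt m) _ hrs
  obtain ⟨e⟩ := homeo _ _ hLfin (hF' (rsn Rl (W n))).2
  have h00 : ({Sum.inl (0, 0)} : Finset ((ℕ × ℕ) ⊕ (ℕ × ℕ))) ∈
      Lc (Kp (2 * m + 6) (gN m)) (rsn Rl (W n)) := by
    refine Or.inl ⟨{(0, 0)}, ⟨?_, ?_, ?_⟩, by simp⟩
    · rw [Finset.image_singleton]
      exact Or.inl ⟨by simp, Or.inl rfl⟩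
    · rw [Finset.image_singleton]
      exact ⟨by simp, Or.inl rfl⟩
    · intro x hx y hy
      rw [Finset.mem_singleton] at hx hy
      rw [hx, hy]
      exact Or.inl le_rfl
  have hpc : PathConnectedSpace (Rlz (Lc (Kp (2 * m + 6) (gN m)) (rsn Rl (W n)))) :=
    pathConnected hL _ h00 hconn
  refine ⟨(hF' _).1, ?_, fun h => ?_, fun h hsc => ?_⟩
  · exact e.surjective.pathConnectedSpace e.continuous
  · rw [hreal _ _ hL hLfin (hF' _).2]
    refine yes_case hP hcx hhol htr hH2 hcomm taut hZ hret hLcx hLcomm _ _ (gN_lt m) _ hrs ?_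
    exact hyes m Rl (W n) (by rw [hR]; exact (hund n).2 h)
  · have hsc' : SimplyConnectedSpace (Rlz (Lc (Kp (2 * m + 6) (gN m)) (rsn Rl (W n)))) :=
      e.toHomotopyEquiv.simplyConnectedSpace
    obtain ⟨G, _, γ, h1, h2, h3⟩ := hno m Rl (W n) (by
      rw [hR]
      exact fun hh => h ((hund n).1 hh))
    exact h3 (no_case' hext hLcx hLext _ _ (gN_lt m) _ hrs G γ h1 h2 hsc' 0 (by omega))

end Pool.Agent.Y602.CX
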